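import Pool.Agent.Y819.ZF.Stm

/-!
# Project ZF: block diagonal matrices and complete graphs
-/

set_option autoImplicit false

namespace Pool.Agent.Y726.ZF

open MvPolynomial Finset Pool.Agent.Helper929 Pool.Agent.H604R2.LEC Pool.Agent.Y819.ZF

lemma oneE_split {E₁ E₂ : Type} [Fintype E₁] [Fintype E₂] (u : E₁ →₀ ℕ) (v : E₂ →₀ ℕ) :
    Finsupp.mapDomain Sum.inl u + Finsupp.mapDomain Sum.inr v = oneE (E₁ ⊕ E₂) ↔
      u = oneE E₁ ∧ v = oneE E₂ := by
  have h1 : ∀ e : E₁, (Finsupp.mapDomain (Sum.inl : E₁ → E₁ ⊕ E₂) u +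
      Finsupp.mapDomain (Sum.inr : E₂ → E₁ ⊕ E₂) v) (Sum.inl e) = u e := by
    intro e
    rw [Finsupp.add_apply, Finsupp.mapDomain_apply Sum.inl_injective,
      Finsupp.mapDomain_notin_range _ _ (by simp), add_zero]
  have h2 : ∀ e : E₂, (Finsupp.mapDomain (Sum.inl : E₁ → E₁ ⊕ E₂) u +
      Finsupp.mapDomain (Sum.inr : E₂ → E₁ ⊕ E₂) v) (Sum.inr e) = v e := by
    intro e
    rw [Finsupp.add_apply, Finsupp.mapDomain_apply Sum.inr_injective,
      Finsupp.mapDomain_notin_range _ _ (by simp), zero_add]
  constructor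
  · intro h
    constructor
    · ext e
      rw [← h1 e, h]; rfl
    · ext e
      rw [← h2 e, h]; rfl
  · rintro ⟨hu, hv⟩
    ext e
    rcases e with e | e
    · rw [h1, hu]; rfl
    · rw [h2, hv]; rfl

lemma coeff_split {R : Type} [CommRing R] {E₁ E₂ : Type} [Fintype E₁] [Fintype E₂]
    (f : MvPolynomial E₁ R) (g : MvPolynomial E₂ R) :
    coeff (oneE (E₁ ⊕ E₂)) (rename Sum.inl f * rename Sum.inr g) =
      coeff (oneE E₁) f * coeff (oneE E₂) g := by
  classical
  induction f using MvPolynomial.induction_on' with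
  | add f f' hf hf' => rw [map_add, add_mul, coeff_add, hf, hf', coeff_add, add_mul]
  | monomial u a =>
    induction g using MvPolynomial.induction_on' with
    | add g g' hg hg' => rw [map_add, mul_add, coeff_add, hg, hg', coeff_add, mul_add]
    | monomial v b =>
      rw [rename_monomial, rename_monomial, monomial_mul, coeff_monomial, coeff_monomial,
        coeff_monomial]
      by_cases h : u = oneE E₁ ∧ v = oneE E₂
      · rw [if_pos ((oneE_split u v).2 h), if_pos h.1, if_pos h.2]
      · rw [if_neg (fun h' => h ((oneE_split u v).1 h'))]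
        by_cases h1 : u = oneE E₁
        · rw [if_neg (fun h2 => h ⟨h1, h2⟩), mul_zero]
        · rw [if_neg h1, zero_mul]

theorem blk : S_BLK := by
  intro p _ z f E₁ E₂ _ _ τ₁ η₁ τ₂ η₂ A₁ A₂
  classical
  unfold DD
  set τ : E₁ ⊕ E₂ → Fin (z + f) :=
    Sum.elim (fun e => Fin.castAdd f (τ₁ e)) (fun e => Fin.natAdd z (τ₂ e)) with hτ
  set η : E₁ ⊕ E₂ → Fin (z + f) :=
    Sum.elim (fun e => Fin.castAdd f (η₁ e)) (fun e => Fin.natAdd z (η₂ e)) with hη
  have hne : ∀ (a : Fin z) (b : Fin f), Fin.castAdd f a ≠ Fin.natAdd z b := by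
    intro a b h
    have := congrArg Fin.val h
    simp at this
    have := a.2
    omega
  have hblk : (SM (ZMod p) τ η + ((Matrix.fromBlocks A₁ 0 0 A₂).submatrix finSumFinEquiv.symm
      finSumFinEquiv.symm).map C).submatrix finSumFinEquiv finSumFinEquiv =
      Matrix.fromBlocks
        ((rename (Sum.inl : E₁ → E₁ ⊕ E₂) : MvPolynomial E₁ (ZMod p) →ₐ[ZMod p] _).toRingHom.mapMatrix
          (SM (ZMod p) τ₁ η₁ + A₁.map C)) 0 0
        ((rename (Sum.inr : E₂ → E₁ ⊕ E₂) : MvPolynomial E₂ (ZMod p) →ₐ[ZMod p] _).toRingHom.mapMatrix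
          (SM (ZMod p) τ₂ η₂ + A₂.map C)) := by
    ext i j : 1
    rw [Matrix.submatrix_apply, Matrix.add_apply, Matrix.map_apply, Matrix.submatrix_apply,
      Equiv.symm_apply_apply, Equiv.symm_apply_apply]
    unfold SM
    rw [Matrix.of_apply, Fintype.sum_sum_type]
    rcases i with a | a <;> rcases j with b | b
    · simp only [hτ, hη, finSumFinEquiv_apply_left, Sum.elim_inl, Sum.elim_inr,
        Matrix.fromBlocks_apply₁₁, RingHom.mapMatrix_apply, Matrix.map_apply, Matrix.add_apply,
        Matrix.of_apply, Fin.castAdd_inj, (hne _ _).symm, false_and, if_false, sub_self,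
        Finset.sum_const_zero, add_zero, map_add, map_sum, map_sub]
      refine congrArg₂ (· + ·) (Finset.sum_congr rfl fun e _ => ?_) ?_
      · split_ifs <;> simp
      · simp
    · simp only [hτ, hη, finSumFinEquiv_apply_left, finSumFinEquiv_apply_right, Sum.elim_inl,
        Sum.elim_inr, Matrix.fromBlocks_apply₁₂, (hne _ _), (hne _ _).symm, false_and, and_false,
        if_false, sub_self, Finset.sum_const_zero, add_zero, Matrix.zero_apply, map_zero]
    · simp only [hτ, hη, finSumFinEquiv_apply_left, finSumFinEquiv_apply_right, Sum.elim_inl,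
        Sum.elim_inr, Matrix.fromBlocks_apply₂₁, (hne _ _), (hne _ _).symm, false_and, and_false,
        if_false, sub_self, Finset.sum_const_zero, add_zero, Matrix.zero_apply, map_zero]
    · simp only [hτ, hη, finSumFinEquiv_apply_right, Sum.elim_inl, Sum.elim_inr,
        Matrix.fromBlocks_apply₂₂, RingHom.mapMatrix_apply, Matrix.map_apply, Matrix.add_apply,
        Matrix.of_apply, Fin.natAdd_inj, (hne _ _), false_and, if_false, sub_self,
        Finset.sum_const_zero, zero_add, map_add, map_sum, map_sub]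
      refine congrArg₂ (· + ·) (Finset.sum_congr rfl fun e _ => ?_) ?_
      · split_ifs <;> simp
      · simp
  have hdet : (SM (ZMod p) τ η + ((Matrix.fromBlocks A₁ 0 0 A₂).submatrix finSumFinEquiv.symm
      finSumFinEquiv.symm).map C).det =
      rename Sum.inl (SM (ZMod p) τ₁ η₁ + A₁.map C).det *
        rename Sum.inr (SM (ZMod p) τ₂ η₂ + A₂.map C).det := by
    rw [← Matrix.det_submatrix_equiv_self finSumFinEquiv, hblk, Matrix.det_fromBlocks_zero₂₁,
      ← RingHom.map_det, ← RingHom.map_det]
    rfl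
  rw [hdet, mul_pow, ← map_pow, ← map_pow, coeff_split]

theorem kz : S_KZ := by
  intro p z _ hz hp
  classical
  have h := coeff_det_ne (p := p) (n := z) hz hp
  have hM : SM (ZMod p) (fun e : Ed z => e.1.1) (fun e : Ed z => e.1.2) +
      (skew (cJ p z)).map C =
      skew (fun e => (X e + C (cJ p z e) : MvPolynomial (Ed z) (ZMod p))) := by
    ext i j : 1
    rw [skew_add_C, Matrix.add_apply, Matrix.map_apply]
    congr 1
    unfold SM
    rw [Matrix.of_apply, Finset.sum_sub_distrib]
    rcases lt_trichotomy i j with hij | hij | hij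
    · rw [skew_lt _ hij, Finset.sum_eq_single ⟨(i, j), hij⟩, Finset.sum_eq_zero]
      · simp
      · intro e _
        rw [if_neg]
        rintro ⟨h1, h2⟩
        have h1' : e.1.1 = _ := h1
        have h2' : e.1.2 = _ := h2
        have := e.2
        rw [h1', h2'] at this
        exact absurd this (not_lt.2 hij.le)
      · intro e _ he
        rw [if_neg]
        rintro ⟨h1, h2⟩
        exact he (Subtype.ext (Prod.ext h1 h2))
      · intro h; exact absurd (Finset.mem_univ _) h
    · subst hij
      rw [skew_self, sub_self]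
    · rw [skew_gt _ hij, Finset.sum_eq_zero, Finset.sum_eq_single ⟨(j, i), hij⟩]
      · simp
      · intro e _ he
        rw [if_neg]
        rintro ⟨h1, h2⟩
        exact he (Subtype.ext (Prod.ext h1 h2))
      · intro h; exact absurd (Finset.mem_univ _) h
      · intro e _
        rw [if_neg]
        rintro ⟨h1, h2⟩
        have h1' : e.1.1 = _ := h1
        have h2' : e.1.2 = _ := h2
        have := e.2
        rw [h1', h2'] at this
        exact absurd this (not_lt.2 hij.le)
  unfold DD
  rw [hM]
  exact h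

end Pool.Agent.Y726.ZF
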